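import Mathlib

/-!
# Hitting times of finite Markov chains in a window of times
-/

namespace Q296.HitWin

/-- `P` is a transition matrix on the finite set `S`. -/
structure IsTransition {S : Type*} [Fintype S] (P : S → S → ℝ) : Prop where
  nonneg : ∀ x y, 0 ≤ P x y
  row_sum : ∀ x, ∑ y, P x y = 1

/-- The probability under `P_x` that `(X_0, …, X_T)` is the given path: `1` if the path starts at
`x` and `0` otherwise, times the product of the transition probabilities along the path. -/
noncomputable def pathProb {S : Type*} [DecidableEq S] (P : S → S → ℝ) (x : S) (T : ℕ)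
    (ω : Fin (T + 1) → S) : ℝ :=
  (if ω 0 = x then 1 else 0) * ∏ i : Fin T, P (ω i.castSucc) (ω i.succ)

/-- The path hits `y` for the first time at a time `k` with `t ≤ k ≤ T`. -/
def HitsIn {S : Type*} (y : S) (t T : ℕ) (ω : Fin (T + 1) → S) : Prop :=
  ∃ k : Fin (T + 1), t ≤ k.val ∧ ω k = y ∧ ∀ j < k, ω j ≠ y

open scoped Classical in
/-- `P_x(t ≤ τ(y) ≤ T)`: the sum of the probabilities of the paths `(X_0, …, X_T)` whose first
visit to `y` is at a time between `t` and `T`. -/
noncomputable def windowProb {S : Type*} [Fintype S] (P : S → S → ℝ) (x y : S)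
    (t T : ℕ) : ℝ :=
  ∑ ω : Fin (T + 1) → S, if HitsIn y t T ω then pathProb P x T ω else 0

end Q296.HitWin
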