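import Pool.Agent.Q296.HitWin.Defs

/-!
# A chain of geometric holding times
-/

namespace Q296.HitWin

open Finset

/-! ### First step analysis -/

open scoped Classical in
/-- `P_x(τ(y) ≤ k)` by first step analysis -/
noncomputable def hitBy {S : Type*} [Fintype S] (P : S → S → ℝ) (y : S) : ℕ → S → ℝ
  | 0, x => if x = y then 1 else 0
  | k + 1, x => if x = y then 1 else ∑ z, P x z * hitBy P y k z

/-- `P_x(τ(y) < t)` -/
noncomputable def hitLt {S : Type*} [Fintype S] (P : S → S → ℝ) (y : S) (t : ℕ) (x : S) : ℝ :=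
  if t = 0 then 0 else hitBy P y (t - 1) x

open scoped Classical in
/-- sums over paths, conditioned on the first step -/
lemma sum_paths {S : Type*} [Fintype S] (P : S → S → ℝ) (x : S) (T : ℕ)
    (E : (Fin (T + 2) → S) → Prop) :
    (∑ ω : Fin (T + 2) → S, if E ω then pathProb P x (T + 1) ω else 0) =
      ∑ z, P x z * ∑ ω : Fin (T + 1) → S, if E (Fin.cons x ω) then pathProb P z T ω else 0 := by
  have h1 : (∑ ω : Fin (T + 2) → S, if E ω then pathProb P x (T + 1) ω else 0) =
      ∑ x0 : S, ∑ ω : Fin (T + 1) → S,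
        if E (Fin.cons x0 ω) then pathProb P x (T + 1) (Fin.cons x0 ω : Fin (T + 2) → S) else 0 := by
    rw [← Fintype.sum_prod_type']
    exact (Fintype.sum_equiv (Fin.consEquiv (fun _ : Fin (T + 2) => S)) _ _
      (fun z => rfl)).symm
  rw [h1, Finset.sum_eq_single x]
  · have h2 : ∀ ω : Fin (T + 1) → S, (if E (Fin.cons x ω) then
        pathProb P x (T + 1) (Fin.cons x ω : Fin (T + 2) → S) else 0) =
        ∑ z, P x z * (if E (Fin.cons x ω) then pathProb P z T ω else 0) := by
      intro ω
      by_cases hE : E (Fin.cons x ω)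
      · simp only [hE, if_true]
        rw [Finset.sum_eq_single (ω 0)]
        · unfold pathProb
          rw [Fin.prod_univ_succ]
          simp only [Fin.cons_zero, if_true, one_mul, Fin.castSucc_zero, Fin.cons_succ]
          congr 1
        · intro z _ hz
          unfold pathProb
          rw [if_neg (fun h => hz h.symm)]
          simp
        · intro h; exact absurd (Finset.mem_univ _) h
      · simp [hE]
    simp only [h2]
    rw [Finset.sum_comm]
    refine Finset.sum_congr rfl fun z _ => ?_
    rw [Finset.mul_sum]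
  · intro z _ hz
    refine Finset.sum_eq_zero fun ω _ => ?_
    split_ifs
    · unfold pathProb
      rw [Fin.cons_zero, if_neg hz]
      simp
    · rfl
  · intro h; exact absurd (Finset.mem_univ _) h

open scoped Classical in
lemma sum_pathProb {S : Type*} [Fintype S] {P : S → S → ℝ} (hP : IsTransition P) (T : ℕ) (x : S) :
    ∑ ω : Fin (T + 1) → S, pathProb P x T ω = 1 := by
  induction T generalizing x with
  | zero =>
    unfold pathProb
    simp only [Finset.univ_eq_empty, Finset.prod_empty, mul_one]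
    rw [Fintype.sum_equiv (Equiv.funUnique (Fin 1) S) _ (fun z => if z = x then (1 : ℝ) else 0)
      (fun ω => by simp [Equiv.funUnique])]
    simp
  | succ T ih =>
    have h := sum_paths P x T (fun _ => True)
    simp only [if_true] at h
    rw [h]
    simp only [ih, mul_one]
    exact hP.row_sum x

open scoped Classical in
lemma hitsIn_cons {S : Type*} (x y : S) (t T : ℕ) (ω : Fin (T + 1) → S) :
    HitsIn y t (T + 1) (Fin.cons x ω : Fin (T + 2) → S) ↔
      (x = y ∧ t = 0) ∨ (x ≠ y ∧ HitsIn y (t - 1) T ω) := by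
  constructor
  · rintro ⟨k, hk, hy, hj⟩
    refine Fin.cases ?_ (fun k' => ?_) k hk hy hj
    · intro hk hy _
      left
      exact ⟨by simpa using hy, by simpa using hk⟩
    · intro hk hy hj
      right
      refine ⟨?_, k', ?_, ?_, ?_⟩
      · have := hj 0 (Fin.succ_pos k')
        simpa using this
      · rw [Fin.val_succ] at hk; omega
      · simpa using hy
      · intro j hjk
        have := hj j.succ (Fin.succ_lt_succ_iff.2 hjk)
        simpa using this
  · rintro (⟨h1, h2⟩ | ⟨h1, k, hk, hy, hj⟩)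
    · exact ⟨0, by omega, by simpa using h1, fun j hj => absurd hj (Fin.not_lt_zero j)⟩
    · refine ⟨k.succ, ?_, ?_, ?_⟩
      · rw [Fin.val_succ]; omega
      · simpa using hy
      · intro j
        refine Fin.cases ?_ (fun j' => ?_) j
        · intro _
          simpa using h1
        · intro hjk
          have := hj j' (Fin.succ_lt_succ_iff.1 hjk)
          simpa using this

open scoped Classical in
lemma windowProb_zero {S : Type*} [Fintype S] (P : S → S → ℝ) (x y : S) (t : ℕ) :
    windowProb P x y t 0 = if x = y ∧ t = 0 then 1 else 0 := by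
  unfold windowProb
  have h1 : ∀ ω : Fin 1 → S, HitsIn y t 0 ω ↔ ω 0 = y ∧ t = 0 := by
    intro ω
    constructor
    · rintro ⟨k, hk, hy, _⟩
      have : k = 0 := Fin.ext (by have := k.isLt; simp only [Fin.val_zero]; omega)
      subst this
      exact ⟨hy, by simpa using hk⟩
    · rintro ⟨h1, h2⟩
      exact ⟨0, by omega, h1, fun j hj => absurd hj (Fin.not_lt_zero j)⟩
  simp only [h1]
  rw [Fintype.sum_equiv (Equiv.funUnique (Fin 1) S) _
    (fun z => if z = y ∧ t = 0 then (if z = x then (1 : ℝ) else 0) else 0)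
      (fun ω => by simp [Equiv.funUnique, pathProb])]
  rw [Finset.sum_eq_single x]
  · simp
  · intro z _ hz
    simp [hz]
  · intro h; exact absurd (Finset.mem_univ _) h

open scoped Classical in
lemma windowProb_succ {S : Type*} [Fintype S] {P : S → S → ℝ} (hP : IsTransition P) (x y : S)
    (t T : ℕ) : windowProb P x y t (T + 1) =
      if x = y then (if t = 0 then 1 else 0) else ∑ z, P x z * windowProb P z y (t - 1) T := by
  unfold windowProb
  rw [sum_paths P x T (HitsIn y t (T + 1))]
  simp only [hitsIn_cons]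
  by_cases hxy : x = y
  · simp only [hxy, true_and, ne_eq, not_true_eq_false, false_and, or_false, if_true]
    by_cases ht : t = 0
    · simp only [ht, if_true, sum_pathProb hP, mul_one]
      exact hP.row_sum y
    · simp [ht]
  · simp [hxy]

lemma windowProb_eq {S : Type*} [Fintype S] {P : S → S → ℝ} (hP : IsTransition P) (y : S)
    (T t : ℕ) (x : S) (ht : t ≤ T + 1) :
    windowProb P x y t T = hitBy P y T x - hitLt P y t x := by
  classical
  induction T generalizing t x with
  | zero =>
    rw [windowProb_zero]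
    unfold hitLt hitBy
    rcases Nat.eq_zero_or_pos t with h | h
    · subst h; simp
    · have : t = 1 := by omega
      subst this
      by_cases hxy : x = y <;> simp [hxy, hitBy]
  | succ T ih =>
    rw [windowProb_succ hP]
    by_cases hxy : x = y
    · rw [if_pos hxy]
      simp only [hitBy, if_pos hxy]
      unfold hitLt
      by_cases h : t = 0
      · simp [h]
      · have : hitBy P y (t - 1) x = 1 := by
          cases t - 1 with
          | zero => simp [hitBy, hxy]
          | succ k => simp [hitBy, hxy]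
        simp [h, this]
    · rw [if_neg hxy]
      simp only [hitBy, if_neg hxy]
      have h1 : ∀ z, windowProb P z y (t - 1) T = hitBy P y T z - hitLt P y (t - 1) z :=
        fun z => ih (t - 1) z (by omega)
      simp only [h1, mul_sub, Finset.sum_sub_distrib]
      congr 1
      unfold hitLt
      rcases Nat.eq_zero_or_pos t with h | h
      · subst h; simp
      · obtain ⟨t', rfl⟩ : ∃ t', t = t' + 1 := ⟨t - 1, by omega⟩
        simp only [Nat.add_sub_cancel]
        rcases Nat.eq_zero_or_pos t' with h' | h'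
        · subst h'
          simp [hitBy, hxy]
        · obtain ⟨t'', rfl⟩ : ∃ t'', t' = t'' + 1 := ⟨t' - 1, by omega⟩
          simp [hitBy, hxy]

/-! ### Binomial tails -/

/-- binomial weights -/
noncomputable def bw (m : ℕ) (q : ℝ) (j : ℕ) : ℝ := (m.choose j : ℝ) * q ^ j * (1 - q) ^ (m - j)

lemma bw_nonneg {m : ℕ} {q : ℝ} (h0 : 0 ≤ q) (h1 : q ≤ 1) (j : ℕ) : 0 ≤ bw m q j := by
  unfold bw
  have : 0 ≤ 1 - q := by linarith
  positivity

lemma bw_sum (m : ℕ) (q : ℝ) : ∑ j ∈ range (m + 1), bw m q j = 1 := by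
  have h := add_pow q (1 - q) m
  have h2 : (q + (1 - q)) ^ m = 1 := by ring_nf
  rw [h2] at h
  rw [h]
  refine Finset.sum_congr rfl fun j _ => ?_
  unfold bw; ring

lemma bw_var (m : ℕ) (q : ℝ) :
    ∑ j ∈ range (m + 1), ((m : ℝ) * q - j) ^ 2 * bw m q j = m * q * (1 - q) := by
  have h := congrArg (Polynomial.eval q) (bernsteinPolynomial.variance ℝ m)
  simpa [Polynomial.eval_finsetSum, bernsteinPolynomial, bw] using h

lemma bw_succ (m : ℕ) (q : ℝ) (j : ℕ) :
    bw (m + 1) q (j + 1) = q * bw m q j + (1 - q) * bw m q (j + 1) := by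
  unfold bw
  rw [Nat.choose_succ_succ]
  push_cast
  rcases Nat.lt_or_ge m (j + 1) with h | h
  · rw [Nat.choose_eq_zero_of_lt h]
    have h1 : m + 1 - (j + 1) = m - j := by omega
    try rw [h1]
    push_cast; ring
  · have h1 : m + 1 - (j + 1) = m - j := by omega
    have h2 : m - j = (m - (j + 1)) + 1 := by omega
    try rw [h1]
    rw [h2, pow_succ]
    ring

/-- `P(Bin(m,q) ≥ j)` -/
noncomputable def tail (m : ℕ) (q : ℝ) (j : ℕ) : ℝ := 1 - ∑ l ∈ range j, bw m q l

lemma tail_zero (m : ℕ) (q : ℝ) : tail m q 0 = 1 := by simp [tail]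

lemma tail_zero_succ (q : ℝ) (j : ℕ) : tail 0 q (j + 1) = 0 := by
  unfold tail
  rw [Finset.sum_range_succ']
  simp [bw]

lemma tail_succ (m : ℕ) (q : ℝ) (j : ℕ) :
    tail (m + 1) q (j + 1) = q * tail m q j + (1 - q) * tail m q (j + 1) := by
  unfold tail
  rw [Finset.sum_range_succ']
  simp only [bw_succ, Finset.sum_add_distrib, ← Finset.mul_sum]
  have h0 : bw (m + 1) q 0 = (1 - q) * bw m q 0 := by
    unfold bw; simp [pow_succ]; ring
  rw [h0, Finset.sum_range_succ' (fun l => bw m q l) j]
  ring

lemma one_sub_tail_le {m j : ℕ} {q : ℝ} (h0 : 0 ≤ q) (h1 : q ≤ 1) (hj : (j : ℝ) < m * q) :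
    1 - tail m q j ≤ m * q / (m * q - j) ^ 2 := by
  unfold tail
  rw [sub_sub_cancel, le_div_iff₀ (by have := sub_pos.2 hj; positivity)]
  have hjm : j ≤ m := by
    have : (j : ℝ) < m := by
      have hm : (0 : ℝ) ≤ m := Nat.cast_nonneg _
      nlinarith
    exact_mod_cast this.le
  calc (∑ l ∈ range j, bw m q l) * ((m : ℝ) * q - j) ^ 2
      = ∑ l ∈ range j, ((m : ℝ) * q - j) ^ 2 * bw m q l := by
        rw [Finset.sum_mul]
        exact Finset.sum_congr rfl fun l _ => mul_comm _ _
    _ ≤ ∑ l ∈ range j, ((m : ℝ) * q - l) ^ 2 * bw m q l := by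
        refine Finset.sum_le_sum fun l hl => ?_
        refine mul_le_mul_of_nonneg_right ?_ (bw_nonneg h0 h1 l)
        have : (l : ℝ) ≤ j := by exact_mod_cast (Finset.mem_range.1 hl).le
        exact pow_le_pow_left₀ (by linarith) (by linarith) 2
    _ ≤ ∑ l ∈ range (m + 1), ((m : ℝ) * q - l) ^ 2 * bw m q l := by
        refine Finset.sum_le_sum_of_subset_of_nonneg ?_ ?_
        · exact Finset.range_subset_range.2 (by omega)
        · intro l _ _
          exact mul_nonneg (sq_nonneg _) (bw_nonneg h0 h1 l)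
    _ = m * q * (1 - q) := bw_var m q
    _ ≤ m * q := by
        have hm : (0 : ℝ) ≤ m := Nat.cast_nonneg _
        nlinarith [mul_nonneg hm h0]

lemma tail_le {m j : ℕ} {q : ℝ} (h0 : 0 ≤ q) (h1 : q ≤ 1) (hj : (m : ℝ) * q < j) :
    tail m q j ≤ m * q / (j - m * q) ^ 2 := by
  rw [le_div_iff₀ (by have := sub_pos.2 hj; positivity)]
  have hm : (0 : ℝ) ≤ m := Nat.cast_nonneg _
  rcases Nat.lt_or_ge m j with hjm | hjm
  · have ht : tail m q j = 0 := by
      unfold tail
      have : ∑ l ∈ range j, bw m q l = ∑ l ∈ range (m + 1), bw m q l := by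
        symm
        refine Finset.sum_subset (Finset.range_subset_range.2 (by omega)) ?_
        intro l _ hl
        rw [Finset.mem_range] at hl
        unfold bw
        rw [Nat.choose_eq_zero_of_lt (by omega)]
        simp
      rw [this, bw_sum, sub_self]
    rw [ht, zero_mul]
    positivity
  · have ht : tail m q j = ∑ l ∈ (range (m + 1)).filter (fun l => ¬ l < j), bw m q l := by
      unfold tail
      rw [← bw_sum m q, ← Finset.sum_filter_add_sum_filter_not (range (m + 1)) (fun l => l < j)]
      have : (range (m + 1)).filter (fun l => l < j) = range j := by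
        ext l
        simp only [Finset.mem_filter, Finset.mem_range]
        omega
      rw [this]
      ring
    rw [ht]
    calc (∑ l ∈ (range (m + 1)).filter (fun l => ¬ l < j), bw m q l) * ((j : ℝ) - m * q) ^ 2
        = ∑ l ∈ (range (m + 1)).filter (fun l => ¬ l < j), ((j : ℝ) - m * q) ^ 2 * bw m q l := by
          rw [Finset.sum_mul]
          exact Finset.sum_congr rfl fun l _ => mul_comm _ _
      _ ≤ ∑ l ∈ (range (m + 1)).filter (fun l => ¬ l < j), ((m : ℝ) * q - l) ^ 2 * bw m q l := by
          refine Finset.sum_le_sum fun l hl => ?_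
          refine mul_le_mul_of_nonneg_right ?_ (bw_nonneg h0 h1 l)
          have hl2 := (Finset.mem_filter.1 hl).2
          push Not at hl2
          have : (j : ℝ) ≤ l := by exact_mod_cast hl2
          have h3 : ((m : ℝ) * q - l) ^ 2 = (l - m * q) ^ 2 := by ring
          rw [h3]
          exact pow_le_pow_left₀ (by linarith) (by linarith) 2
      _ ≤ ∑ l ∈ range (m + 1), ((m : ℝ) * q - l) ^ 2 * bw m q l := by
          refine Finset.sum_le_sum_of_subset_of_nonneg (Finset.filter_subset _ _) ?_
          intro l _ _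
          exact mul_nonneg (sq_nonneg _) (bw_nonneg h0 h1 l)
      _ = m * q * (1 - q) := bw_var m q
      _ ≤ m * q := by nlinarith [mul_nonneg hm h0]

/-! ### The line -/

/-- the chain on `0, …, N` which moves from `i < N` to `i + 1` with probability `q` and otherwise
stays; `N` is absorbing -/
noncomputable def line (N : ℕ) (q : ℝ) (i j : Fin (N + 1)) : ℝ :=
  if i.val = N then (if j = i then 1 else 0)
  else (if j = i then 1 - q else 0) + (if j.val = i.val + 1 then q else 0)

lemma line_sum (N : ℕ) (q : ℝ) (f : Fin (N + 1) → ℝ) (i : Fin (N + 1)) (hi : i.val < N) :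
    ∑ j, line N q i j * f j = (1 - q) * f i + q * f ⟨i.val + 1, by omega⟩ := by
  unfold line
  simp only [hi.ne, if_false, add_mul, Finset.sum_add_distrib]
  congr 1
  · rw [Finset.sum_eq_single i]
    · simp
    · intro j _ hj; simp [hj]
    · intro h; exact absurd (Finset.mem_univ _) h
  · rw [Finset.sum_eq_single ⟨i.val + 1, by omega⟩]
    · simp
    · intro j _ hj
      have : ¬ j.val = i.val + 1 := fun h => hj (Fin.ext h)
      simp [this]
    · intro h; exact absurd (Finset.mem_univ _) h

lemma line_isTransition (N : ℕ) {q : ℝ} (h0 : 0 ≤ q) (h1 : q ≤ 1) :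
    IsTransition (line N q) where
  nonneg i j := by
    have : 0 ≤ 1 - q := by linarith
    unfold line
    split_ifs <;> linarith
  row_sum i := by
    by_cases hi : i.val < N
    · have := line_sum N q (fun _ => 1) i hi
      simp only [mul_one] at this
      rw [this]; ring
    · have : i.val = N := by omega
      unfold line
      simp [this]

lemma line_hitBy (N : ℕ) (q : ℝ) (k : ℕ) (i : Fin (N + 1)) :
    hitBy (line N q) (Fin.last N) k i = tail k q (N - i.val) := by
  classical
  induction k generalizing i with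
  | zero =>
    unfold hitBy
    by_cases hi : i = Fin.last N
    · subst hi
      simp [tail_zero]
    · rw [if_neg hi]
      have : i.val < N := Fin.val_lt_last hi
      obtain ⟨d, hd⟩ : ∃ d, N - i.val = d + 1 := ⟨N - i.val - 1, by omega⟩
      rw [hd, tail_zero_succ]
  | succ k ih =>
    unfold hitBy
    by_cases hi : i = Fin.last N
    · subst hi
      simp [tail_zero]
    · rw [if_neg hi]
      have hlt : i.val < N := Fin.val_lt_last hi
      obtain ⟨d, hd⟩ : ∃ d, N - i.val = d + 1 := ⟨N - i.val - 1, by omega⟩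
      rw [line_sum N q _ i hlt, ih, ih, hd, tail_succ]
      have : N - (i.val + 1) = d := by omega
      simp only [this]
      ring

/-! ### Windows -/

lemma windowProb_split {S : Type*} [Fintype S] (P : S → S → ℝ) (x y : S)
    (a L K : ℕ) :
    hitLt P y (a + K * L) x - hitLt P y a x =
      ∑ i ∈ range K, (hitLt P y (a + (i + 1) * L) x - hitLt P y (a + i * L) x) := by
  induction K with
  | zero => simp
  | succ K ih =>
    rw [Finset.sum_range_succ, ← ih]; ring

/-- The main estimate. -/
lemma main (N s : ℕ) (hs1 : N < s ^ 2) (hs2 : (s - 1) ^ 2 ≤ N) (hs5 : 5 ≤ s) :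
    ∃ t : ℕ, N + 1 < t ∧
      Real.sqrt ((N + 1 : ℕ) : ℝ) / 60 * (((N + 1 : ℕ) : ℝ) / t) ≤
        windowProb (line N (1 / ((N + 2 : ℕ) : ℝ))) 0 (Fin.last N) t (t + (N + 1)) := by
  obtain ⟨r, rfl⟩ : ∃ r, s = r + 1 := ⟨s - 1, by omega⟩
  simp only [Nat.add_sub_cancel] at hs2
  set q : ℝ := 1 / ((N + 2 : ℕ) : ℝ) with hq
  have hN2 : (0 : ℝ) < ((N + 2 : ℕ) : ℝ) := by positivity
  have hq0 : 0 ≤ q := by rw [hq]; positivity
  have hq1 : q ≤ 1 := by
    rw [hq, div_le_one hN2]
    have : 1 ≤ N + 2 := by omega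
    exact_mod_cast this
  set P := line N q with hPdef
  have hP : IsTransition P := line_isTransition N hq0 hq1
  -- the two ends
  have hNge : 2 * (r + 1) ≤ N := by nlinarith
  obtain ⟨M, hM⟩ : ∃ M, N = M + 2 * (r + 1) := ⟨N - 2 * (r + 1), by omega⟩
  have hmean : ∀ k : ℕ, ((k * (N + 2) : ℕ) : ℝ) * q = k := by
    intro k
    rw [hq]; push_cast; field_simp
  have hNr : (N : ℝ) < ((r : ℝ) + 1) ^ 2 := by exact_mod_cast hs1
  have hMr : (N : ℝ) = M + 2 * (r + 1) := by exact_mod_cast hM
  have hr : (4 : ℝ) ≤ r := by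
    have : 4 ≤ r := by omega
    exact_mod_cast this
  have hlow : hitLt P (Fin.last N) (M * (N + 2) + 1) 0 ≤ 1 / 4 := by
    have h1 : hitLt P (Fin.last N) (M * (N + 2) + 1) 0 = tail (M * (N + 2)) q N := by
      unfold hitLt
      rw [if_neg (by omega), Nat.add_sub_cancel, hPdef, line_hitBy]
      simp
    rw [h1]
    have h2 := tail_le (m := M * (N + 2)) (j := N) hq0 hq1 (by rw [hmean]; rw [hMr]; linarith)
    rw [hmean] at h2
    refine h2.trans ?_
    have h3 : (N : ℝ) - M = 2 * (r + 1) := by rw [hMr]; ring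
    rw [h3, div_le_iff₀ (by positivity)]
    nlinarith
  have hhigh : 3 / 4 ≤ hitLt P (Fin.last N) ((N + 5 * (r + 1)) * (N + 2) + 1) 0 := by
    have h1 : hitLt P (Fin.last N) ((N + 5 * (r + 1)) * (N + 2) + 1) 0 =
        tail ((N + 5 * (r + 1)) * (N + 2)) q N := by
      unfold hitLt
      rw [if_neg (by omega), Nat.add_sub_cancel, hPdef, line_hitBy]
      simp
    rw [h1]
    have h2 := one_sub_tail_le (m := (N + 5 * (r + 1)) * (N + 2)) (j := N) hq0 hq1
      (by rw [hmean]; push_cast; linarith)
    rw [hmean] at h2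
    have h3 : ((N + 5 * (r + 1) : ℕ) : ℝ) / (((N + 5 * (r + 1) : ℕ) : ℝ) - N) ^ 2 ≤ 1 / 4 := by
      have h4 : ((N + 5 * (r + 1) : ℕ) : ℝ) - N = 5 * (r + 1) := by push_cast; ring
      rw [h4, div_le_iff₀ (by positivity)]
      push_cast
      nlinarith
    linarith
  -- pigeonhole
  set a := M * (N + 2) + 1 with ha
  have hend : a + (7 * (r + 1)) * (N + 2) = (N + 5 * (r + 1)) * (N + 2) + 1 := by
    rw [ha]
    have : N + 5 * (r + 1) = M + 7 * (r + 1) := by omega
    rw [this]; ring
  have hsplit := windowProb_split P 0 (Fin.last N) a (N + 2) (7 * (r + 1))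
  rw [hend] at hsplit
  obtain ⟨i, hi, hwin⟩ : ∃ i ∈ range (7 * (r + 1)), (1 / 2) / ((7 * (r + 1) : ℕ) : ℝ) ≤
      hitLt P (Fin.last N) (a + (i + 1) * (N + 2)) 0 - hitLt P (Fin.last N) (a + i * (N + 2)) 0 := by
    by_contra hcon
    push Not at hcon
    have h1 : ∑ i ∈ range (7 * (r + 1)), (hitLt P (Fin.last N) (a + (i + 1) * (N + 2)) 0 -
        hitLt P (Fin.last N) (a + i * (N + 2)) 0) <
        ∑ _i ∈ range (7 * (r + 1)), (1 / 2) / ((7 * (r + 1) : ℕ) : ℝ) :=
      Finset.sum_lt_sum_of_nonempty ⟨0, by simp⟩ hcon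
    rw [sum_const, card_range, nsmul_eq_mul] at h1
    have h2 : ((7 * (r + 1) : ℕ) : ℝ) * ((1 / 2) / ((7 * (r + 1) : ℕ) : ℝ)) = 1 / 2 := by
      have : ((7 * (r + 1) : ℕ) : ℝ) ≠ 0 := by positivity
      field_simp
    rw [h2, ← hsplit] at h1
    linarith
  set t := a + i * (N + 2) with ht
  have hMpos : 1 ≤ M := by nlinarith
  have htN : N + 1 < t := by
    have h1 : 1 * (N + 2) ≤ M * (N + 2) := Nat.mul_le_mul_right _ hMpos
    have h2 : 0 ≤ i * (N + 2) := Nat.zero_le _
    omega
  refine ⟨t, htN, ?_⟩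
  rw [windowProb_eq hP _ _ _ _ (by omega)]
  have h5 : hitBy P (Fin.last N) (t + (N + 1)) 0 =
      hitLt P (Fin.last N) (a + (i + 1) * (N + 2)) 0 := by
    unfold hitLt
    rw [if_neg (by rw [ha]; omega)]
    congr 1
    have : a + (i + 1) * (N + 2) = t + (N + 2) := by rw [ht]; ring
    omega
  rw [h5]
  refine le_trans ?_ hwin
  -- the numerical inequality
  have htpos : (0 : ℝ) < t := by
    have : 0 < t := by omega
    exact_mod_cast this
  have htM : (M : ℝ) * (N + 1) ≤ t := by
    have h1 : M * (N + 1) ≤ t := by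
      have h2 : M * (N + 1) ≤ M * (N + 2) := Nat.mul_le_mul_left _ (by omega)
      have h3 : M * (N + 2) ≤ t := by omega
      exact h2.trans h3
    exact_mod_cast h1
  have hsqrt : Real.sqrt ((N + 1 : ℕ) : ℝ) ≤ r + 1 := by
    rw [Real.sqrt_le_left (by positivity)]
    have : N + 1 ≤ (r + 1) ^ 2 := hs1
    exact_mod_cast this
  have hM2 : 14 * ((r : ℝ) + 1) ^ 2 ≤ 60 * M := by
    have h1 : (r : ℝ) ^ 2 ≤ N := by exact_mod_cast hs2
    nlinarith
  calc Real.sqrt ((N + 1 : ℕ) : ℝ) / 60 * (((N + 1 : ℕ) : ℝ) / t)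
      ≤ ((r : ℝ) + 1) / 60 * (((N + 1 : ℕ) : ℝ) / t) := by
        refine mul_le_mul_of_nonneg_right ?_ (by positivity)
        linarith
    _ ≤ (1 / 2) / ((7 * (r + 1) : ℕ) : ℝ) := by
        rw [div_mul_div_comm, div_le_div_iff₀ (by positivity) (by positivity)]
        push_cast
        have h6 : ((r : ℝ) + 1) * (N + 1) * (14 * (r + 1)) ≤ 60 * t := by
          calc ((r : ℝ) + 1) * (N + 1) * (14 * (r + 1)) = 14 * ((r : ℝ) + 1) ^ 2 * (N + 1) := by
                ring
            _ ≤ 60 * M * (N + 1) := mul_le_mul_of_nonneg_right hM2 (by positivity)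
            _ = 60 * (M * (N + 1)) := by ring
            _ ≤ 60 * t := by linarith
        linarith

end Q296.HitWin
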